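import Mathlib

/-!
# `|corona(G)| + |ker(G)| ≤ 2 α(G) + k`, `k` the number of odd cycles of `G`

Question 1 of the problem has a positive answer. More precisely, let `X` be any critical independent set
of `G` and `T` a set of vertices such that `G - (X ∪ N(X) ∪ T)` is bipartite (for instance an odd cycle
transversal of `G - (X ∪ N(X))`). Then `|corona(G)| + |ker(G)| ≤ 2 α(G) + |T|`. In particular only the
odd cycles that avoid `X ∪ N(X)` have to be counted.

Proof. `N(X)` is matched into `X` (Hall). If `S` is a maximum independent set, `X ∩ S` is critical, so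
`ker(G) ⊆ X ∩ S`; so the matching maps `corona(G) ∩ N(X)` into `X \ ker(G)`, and
`|corona(G) ∩ (X ∪ N(X))| + |ker(G)| ≤ 2 |X|`. With the larger colour class `I` of
`G - (X ∪ N(X) ∪ T)`, the set `X ∪ I` is independent.

The lemma that a graph which is not 2-colourable has an odd cycle is adapted from
`Pool/Agent/TH583/HB/Cyc.lean`.
-/

set_option autoImplicit false

open Finset

namespace Pool.Agent.Results.MP_7e5e3f_co.CoronaPlusKer

variable {V : Type*}

/-- `S` is a maximum independent set of `G`. -/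
def IsMaxIndep (G : SimpleGraph V) (S : Finset V) : Prop :=
  G.IsIndepSet (S : Set V) ∧ ∀ S' : Finset V, G.IsIndepSet (S' : Set V) → S'.card ≤ S.card

/-- `corona(G)`: the union of all maximum independent sets. -/
def corona (G : SimpleGraph V) : Set V := {v | ∃ S, IsMaxIndep G S ∧ v ∈ S}

/-- `N(X)`: the set of the vertices adjacent to at least one vertex of `X`. -/
def nbhd (G : SimpleGraph V) (X : Finset V) : Set V := {w | ∃ x ∈ X, G.Adj x w}

/-- `d_G(X) = |X| - |N(X)|`. -/
noncomputable def dif (G : SimpleGraph V) (X : Finset V) : ℤ := (X.card : ℤ) - ((nbhd G X).ncard : ℤ)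

/-- `X` is a critical independent set: an independent set maximizing `d_G`. -/
def IsCritical (G : SimpleGraph V) (X : Finset V) : Prop :=
  G.IsIndepSet (X : Set V) ∧ ∀ Y : Finset V, G.IsIndepSet (Y : Set V) → dif G Y ≤ dif G X

/-- `ker(G)`: the intersection of all critical independent sets. -/
def ker (G : SimpleGraph V) : Set V := {v | ∀ X, IsCritical G X → v ∈ X}

/-- The edge sets of the odd cycles of `G` (cycles are counted as subgraphs). -/
def oddCycles (G : SimpleGraph V) : Set (Set (Sym2 V)) :=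
  {c | ∃ (v : V) (w : G.Walk v v), w.IsCycle ∧ Odd w.length ∧ c = {e | e ∈ w.edges}}

/-- The set `X ∪ N(X)` and the vertices of `T` removed. -/
def outside (G : SimpleGraph V) (X T : Finset V) : Set V := {v | v ∉ X ∧ v ∉ nbhd G X ∧ v ∉ T}

/-! ### odd cycles of graphs which are not bipartite -/

section walks

variable {G : SimpleGraph V}

/-- there is a walk of length `n` from `u` to `v` -/
def HW (G : SimpleGraph V) (n : ℕ) (u v : V) : Prop := ∃ p : G.Walk u v, p.length = n

structure MinOdd (G : SimpleGraph V) (g : ℕ) (c : ℕ → V) : Prop where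
  adj : ∀ i < g, G.Adj (c i) (c (i+1))
  closed : c g = c 0
  odd : Odd g
  min : ∀ n, Odd n → n < g → ∀ v, ¬ HW G n v v

lemma HW.refl (u : V) : HW G 0 u u := ⟨SimpleGraph.Walk.nil, rfl⟩

lemma HW.of_adj {u v : V} (h : G.Adj u v) : HW G 1 u v :=
  ⟨SimpleGraph.Walk.cons h SimpleGraph.Walk.nil, rfl⟩

lemma HW.trans {a b : ℕ} {u v w : V} (h1 : HW G a u v) (h2 : HW G b v w) : HW G (a + b) u w := by
  obtain ⟨p, hp⟩ := h1
  obtain ⟨q, hq⟩ := h2
  exact ⟨p.append q, by rw [SimpleGraph.Walk.length_append, hp, hq]⟩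

lemma HW.symm {a : ℕ} {u v : V} (h1 : HW G a u v) : HW G a v u := by
  obtain ⟨p, hp⟩ := h1
  exact ⟨p.reverse, by rw [SimpleGraph.Walk.length_reverse, hp]⟩

lemma HW_seg (c : ℕ → V) (g : ℕ) (hc : ∀ i < g, G.Adj (c i) (c (i+1))) (i : ℕ) (d : ℕ)
    (h : i + d ≤ g) : HW G d (c i) (c (i + d)) := by
  induction d with
  | zero => exact HW.refl _
  | succ d ih =>
    have h1 := ih (by omega)
    exact h1.trans (HW.of_adj (hc (i+d) (by omega)))

namespace MinOdd
variable {g : ℕ} {c : ℕ → V}

lemma arc1 (M : MinOdd G g c) {i j : ℕ} (hij : i ≤ j) (hj : j ≤ g) : HW G (j - i) (c i) (c j) := by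
  have w1 := HW_seg c g M.adj i (j - i) (by omega)
  rwa [show i + (j - i) = j by omega] at w1

lemma arc2 (M : MinOdd G g c) {i j : ℕ} (hij : i ≤ j) (hj : j ≤ g) :
    HW G (g - (j - i)) (c i) (c j) := by
  have w2 := M.arc1 hj le_rfl
  rw [M.closed] at w2
  have w3 := M.arc1 (Nat.zero_le i) (hij.trans hj)
  have w4 := (w2.trans w3).symm
  rwa [show g - j + (i - 0) = g - (j - i) by omega] at w4

lemma inj (M : MinOdd G g c) {i j : ℕ} (hij : i < j) (hj : j < g) : c i ≠ c j := by
  intro heq
  have w1 := M.arc1 hij.le hj.le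
  have w2 := M.arc2 hij.le hj.le
  rw [← heq] at w1 w2
  obtain ⟨b, hb⟩ := M.odd
  rcases Nat.even_or_odd (j - i) with ⟨a, ha⟩ | ho
  · exact M.min (g - (j - i)) ⟨b - a, by omega⟩ (by omega) _ w2
  · exact M.min (j - i) ho (by omega) _ w1

end MinOdd

/-- a graph which is not `2`-colourable has an odd cycle -/
theorem exists_odd_cycle (h : ¬ G.Colorable 2) :
    ∃ (v : V) (p : G.Walk v v), p.IsCycle ∧ Odd p.length := by
  classical
  rw [SimpleGraph.two_colorable_iff_forall_loop_even] at h
  push Not at h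
  obtain ⟨u, w, hw⟩ := h
  have hex : ∃ n, Odd n ∧ ∃ v, HW G n v v := ⟨w.length, by simpa using hw, u, w, rfl⟩
  obtain ⟨hodd, v', p, hp⟩ := Nat.find_spec hex
  set g := Nat.find hex with hg
  have M : MinOdd G g p.getVert := by
    constructor
    · intro i hi
      exact p.adj_getVert_succ (by rw [hp]; exact hi)
    · rw [← hp]; simp
    · exact hodd
    · intro n hn hlt v hv
      exact Nat.find_min hex hlt ⟨hn, v, hv⟩
  refine ⟨v', p, ?_, by rw [hp]; exact M.odd⟩
  have h3g : 3 ≤ g := by
    obtain ⟨b, hb⟩ := M.odd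
    rcases Nat.lt_or_ge g 3 with h | h
    · have hg1 : g = 1 := by omega
      have := M.adj 0 (by omega)
      have h2 := M.closed
      rw [hg1] at h2
      simp only [zero_add] at this
      rw [h2] at this
      exact absurd rfl this.ne
    · exact h
  rw [SimpleGraph.Walk.isCycle_iff_isPath_tail_and_le_length]
  have hnil : ¬ p.Nil := by
    intro hn
    have := SimpleGraph.Walk.length_eq_zero_iff.mpr hn
    omega
  have htl := SimpleGraph.Walk.length_tail_add_one hnil
  refine ⟨?_, by omega⟩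
  rw [← SimpleGraph.Walk.IsPath.getVert_injOn_iff]
  intro a ha b hb hab
  simp only [Set.mem_ofPred_eq] at ha hb
  rw [SimpleGraph.Walk.getVert_tail, SimpleGraph.Walk.getVert_tail] at hab
  have key : ∀ a b, a < b → b ≤ p.tail.length → p.getVert (a+1) ≠ p.getVert (b+1) := by
    intro a b hab hb
    rcases Nat.lt_or_ge (b+1) g with h1 | h1
    · exact M.inj (by omega) h1
    · have hbl : b + 1 = g := by omega
      rw [hbl, M.closed]
      exact (M.inj (by omega) (by omega)).symm
  by_contra hne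
  rcases lt_or_gt_of_ne hne with h1 | h1
  · exact key a b h1 hb hab
  · exact key b a h1 ha hab.symm

end walks

/-! ### critical sets -/

section crit

variable [Finite V] {G : SimpleGraph V}

omit [Finite V] in
theorem mem_nbhd {X : Finset V} {w : V} : w ∈ nbhd G X ↔ ∃ x ∈ X, G.Adj x w := Iff.rfl

/-- Hall's condition for `N(X)` into `X`. -/
theorem hall {X : Finset V} (hX : IsCritical G X) (Y : Finset V) (hY : ∀ y ∈ Y, y ∈ nbhd G X)
    (Z : Finset V) (hZ : ∀ x ∈ X, (∃ y ∈ Y, G.Adj x y) → x ∈ Z) : Y.card ≤ Z.card := by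
  classical
  set X' : Finset V := X.filter (fun x => ¬ ∃ y ∈ Y, G.Adj x y) with hX'
  have h1 : G.IsIndepSet (X' : Set V) := by
    intro a ha b hb hab
    exact hX.1 (mem_coe.2 (mem_filter.1 (mem_coe.1 ha)).1) (mem_coe.2 (mem_filter.1 (mem_coe.1 hb)).1) hab
  have h2 := hX.2 X' h1
  have h3 : (nbhd G X').ncard + Y.card ≤ (nbhd G X).ncard := by
    rw [← Set.ncard_coe_finset Y, ← Set.ncard_union_eq ?_ (Set.toFinite _) (Set.toFinite _)]
    · apply Set.ncard_le_ncard _ (Set.toFinite _)
      rintro w (⟨x, hx, hw⟩ | hw)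
      · exact ⟨x, (mem_filter.1 hx).1, hw⟩
      · exact hY w hw
    · rw [Set.disjoint_left]
      rintro w ⟨x, hx, hw⟩ hwY
      exact (mem_filter.1 hx).2 ⟨w, hwY, hw⟩
  have h4 : X.card ≤ X'.card + Z.card := by
    refine le_trans (card_le_card ?_) (card_union_le X' Z)
    intro x hx
    rw [mem_union]
    by_cases h : ∃ y ∈ Y, G.Adj x y
    · exact Or.inr (hZ x hx h)
    · exact Or.inl (mem_filter.2 ⟨hx, h⟩)
  unfold dif at h2
  omega

/-- If `X` is critical and `S` a maximum independent set, `X ∩ S` is critical. -/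
theorem crit_inter [DecidableEq V] {X S : Finset V} (hX : IsCritical G X) (hS : IsMaxIndep G S) :
    IsCritical G (X ∩ S) := by
  classical
  have hmono : G.IsIndepSet ((X ∩ S : Finset V) : Set V) := by
    intro a ha b hb hab
    exact hX.1 (mem_coe.2 (mem_inter.1 (mem_coe.1 ha)).1) (mem_coe.2 (mem_inter.1 (mem_coe.1 hb)).1) hab
  refine ⟨hmono, fun Y hY => (hX.2 Y hY).trans ?_⟩
  set P : Finset V := S.filter (fun s => s ∈ nbhd G X) with hP
  set Q : Finset V := S.filter (fun s => s ∉ nbhd G X) with hQ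
  have hPQ : P.card + Q.card = S.card := card_filter_add_card_filter_not _
  have h1 : (nbhd G (X ∩ S)).ncard + P.card ≤ (nbhd G X).ncard := by
    rw [← Set.ncard_coe_finset P, ← Set.ncard_union_eq ?_ (Set.toFinite _) (Set.toFinite _)]
    · apply Set.ncard_le_ncard _ (Set.toFinite _)
      rintro w (⟨x, hx, hw⟩ | hw)
      · exact ⟨x, (mem_inter.1 hx).1, hw⟩
      · exact (mem_filter.1 (mem_coe.1 hw)).2
    · rw [Set.disjoint_left]
      rintro w ⟨x, hx, hw⟩ hwP
      exact hS.1 (mem_coe.2 (mem_inter.1 hx).2) (mem_coe.2 (mem_filter.1 (mem_coe.1 hwP)).1) hw.ne hw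
  have h2 : (Q ∪ (X \ S)).card ≤ S.card := by
    apply hS.2
    intro a ha b hb hab hadj
    rw [mem_coe, mem_union] at ha hb
    rcases ha with ha | ha <;> rcases hb with hb | hb
    · exact hS.1 (mem_coe.2 (mem_filter.1 ha).1) (mem_coe.2 (mem_filter.1 hb).1) hab hadj
    · exact (mem_filter.1 ha).2 ⟨b, (mem_sdiff.1 hb).1, hadj.symm⟩
    · exact (mem_filter.1 hb).2 ⟨a, (mem_sdiff.1 ha).1, hadj⟩
    · exact hX.1 (mem_coe.2 (mem_sdiff.1 ha).1) (mem_coe.2 (mem_sdiff.1 hb).1) hab hadj
  have h3 : (Q ∪ (X \ S)).card = Q.card + (X \ S).card := by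
    apply card_union_of_disjoint
    rw [disjoint_left]
    intro a ha hb
    exact (mem_sdiff.1 hb).2 (mem_filter.1 ha).1
  have h4 : (X ∩ S).card + (X \ S).card = X.card := card_inter_add_card_sdiff X S
  unfold dif
  omega

/-- The bound with an odd cycle transversal `T` of `G - (X ∪ N(X))`. -/
theorem bound {X T : Finset V} (hX : IsCritical G X)
    (hT : (G.induce (outside G X T)).Colorable 2) :
    (corona G).ncard + (ker G).ncard ≤ 2 * G.indepNum + T.card := by
  classical
  have := Fintype.ofFinite V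
  set C : Finset V := univ.filter (fun v => v ∈ corona G) with hC
  set K : Finset V := univ.filter (fun v => v ∈ ker G) with hK
  set N : Finset V := univ.filter (fun v => v ∈ nbhd G X) with hN
  set R : Finset V := univ.filter (fun v => v ∉ X ∧ v ∉ nbhd G X) with hR
  have eC : (corona G).ncard = C.card := by
    rw [← Set.ncard_coe_finset C]; congr 1; ext v; simp [hC]
  have eK : (ker G).ncard = K.card := by
    rw [← Set.ncard_coe_finset K]; congr 1; ext v; simp [hK]
  rw [eC, eK]
  -- the matching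
  have hm : ∃ f : {v // v ∈ nbhd G X} → V, Function.Injective f ∧
      ∀ v, f v ∈ X.filter (fun x => G.Adj x v.1) := by
    rw [← Finset.all_card_le_biUnion_card_iff_exists_injective]
    intro s
    have h := hall hX (s.map (Function.Embedding.subtype _)) (by
      intro y hy
      obtain ⟨z, -, rfl⟩ := mem_map.1 hy
      exact z.2) (s.biUnion fun v => X.filter (fun x => G.Adj x v.1)) (by
      rintro x hx ⟨y, hy, hxy⟩
      obtain ⟨z, hz, rfl⟩ := mem_map.1 hy
      exact mem_biUnion.2 ⟨z, hz, mem_filter.2 ⟨hx, hxy⟩⟩)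
    rwa [card_map] at h
  obtain ⟨f, hf, hfX⟩ := hm
  have hKX : K ⊆ X := fun v hv => (mem_filter.1 hv).2 X hX
  have h1 : (C ∩ N).card + K.card ≤ X.card := by
    have h2 : (C ∩ N).card ≤ (X \ K).card := by
      apply card_le_card_of_injOn (fun v => if h : v ∈ nbhd G X then f ⟨v, h⟩ else v)
      · intro v hv
        rw [mem_coe, mem_inter] at hv
        have hvN : v ∈ nbhd G X := (mem_filter.1 hv.2).2
        obtain ⟨S, hS, hvS⟩ := (mem_filter.1 hv.1).2
        have h3 := mem_filter.1 (hfX ⟨v, hvN⟩)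
        rw [mem_coe]
        simp only [hvN, dif_pos]
        rw [mem_sdiff]
        refine ⟨h3.1, fun hk => ?_⟩
        have h4 : f ⟨v, hvN⟩ ∈ X ∩ S := (mem_filter.1 hk).2 _ (crit_inter hX hS)
        exact hS.1 (mem_coe.2 (mem_inter.1 h4).2) (mem_coe.2 hvS) h3.2.ne h3.2
      · intro v hv w hw hvw
        rw [mem_coe, mem_inter] at hv hw
        have hvN : v ∈ nbhd G X := (mem_filter.1 hv.2).2
        have hwN : w ∈ nbhd G X := (mem_filter.1 hw.2).2
        simp only [hvN, hwN, dif_pos] at hvw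
        have := hf hvw
        exact congrArg Subtype.val this
    have h3 := card_sdiff_add_card_eq_card hKX
    omega
  have h2 : C.card ≤ X.card + (C ∩ N).card + R.card := by
    have h3 : C ⊆ (X ∪ (C ∩ N)) ∪ R := by
      intro v hv
      rw [mem_union, mem_union, mem_inter]
      by_cases hvX : v ∈ X
      · exact Or.inl (Or.inl hvX)
      · by_cases hvN : v ∈ nbhd G X
        · exact Or.inl (Or.inr ⟨hv, mem_filter.2 ⟨mem_univ _, hvN⟩⟩)
        · exact Or.inr (mem_filter.2 ⟨mem_univ _, hvX, hvN⟩)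
    have h4 := card_le_card h3
    have h5 := card_union_le (X ∪ (C ∩ N)) R
    have h6 := card_union_le X (C ∩ N)
    omega
  -- the colour classes
  obtain ⟨col⟩ := hT
  set I : Fin 2 → Finset V := fun a =>
    univ.filter (fun v => ∃ h : v ∈ outside G X T, col ⟨v, h⟩ = a) with hI
  have hind : ∀ a, X.card + (I a).card ≤ G.indepNum := by
    intro a
    have h3 : (X ∪ I a).card = X.card + (I a).card := by
      apply card_union_of_disjoint
      rw [disjoint_left]
      intro v hv hv2
      obtain ⟨-, h, -⟩ := mem_filter.1 hv2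
      exact h.1 hv
    rw [← h3]
    apply SimpleGraph.IsIndepSet.card_le_indepNum
    intro v hv w hw hvw hadj
    rw [mem_coe, mem_union] at hv hw
    rcases hv with hv | hv <;> rcases hw with hw | hw
    · exact hX.1 (mem_coe.2 hv) (mem_coe.2 hw) hvw hadj
    · obtain ⟨-, h, -⟩ := mem_filter.1 hw
      exact h.2.1 ⟨v, hv, hadj⟩
    · obtain ⟨-, h, -⟩ := mem_filter.1 hv
      exact h.2.1 ⟨w, hw, hadj.symm⟩
    · obtain ⟨-, h, he⟩ := mem_filter.1 hv
      obtain ⟨-, h', he'⟩ := mem_filter.1 hw
      have h6 : (G.induce (outside G X T)).Adj ⟨v, h⟩ ⟨w, h'⟩ := hadj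
      exact col.valid h6 (he.trans he'.symm)
  have h7 : R.card ≤ (I 0).card + (I 1).card + T.card := by
    have h8 : R ⊆ (I 0 ∪ I 1) ∪ T := by
      intro v hv
      have hv2 := (mem_filter.1 hv).2
      rw [mem_union, mem_union]
      by_cases hvT : v ∈ T
      · exact Or.inr hvT
      · have ho : v ∈ outside G X T := ⟨hv2.1, hv2.2, hvT⟩
        left
        have h9 : col ⟨v, ho⟩ = 0 ∨ col ⟨v, ho⟩ = 1 := by
          generalize col ⟨v, ho⟩ = a
          revert a
          decide
        rcases h9 with h9 | h9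
        · exact Or.inl (mem_filter.2 ⟨mem_univ _, ho, h9⟩)
        · exact Or.inr (mem_filter.2 ⟨mem_univ _, ho, h9⟩)
    have h9 := card_le_card h8
    have h10 := card_union_le (I 0 ∪ I 1) T
    have h11 := card_union_le (I 0) (I 1)
    omega
  have h8 := hind 0
  have h9 := hind 1
  omega

/-- The bound with the number of odd cycles avoiding `X ∪ N(X)`. -/
theorem bound_cycles {X : Finset V} (hX : IsCritical G X) :
    (corona G).ncard + (ker G).ncard ≤ 2 * G.indepNum +
      {c | c ∈ oddCycles G ∧ ∀ e ∈ c, ∀ v ∈ e, v ∉ X ∧ v ∉ nbhd G X}.ncard := by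
  classical
  have := Fintype.ofFinite V
  set F : Set (Set (Sym2 V)) := {c | c ∈ oddCycles G ∧ ∀ e ∈ c, ∀ v ∈ e, v ∉ X ∧ v ∉ nbhd G X}
    with hF
  have hch : ∀ c : F, ∃ v : V, ∃ e ∈ c.1, v ∈ e := by
    rintro ⟨c, ⟨v, w, hw, hodd, rfl⟩, -⟩
    have hne : w.edges ≠ [] := by
      intro h
      have h2 : w.edges.length = 0 := by rw [h]; rfl
      rw [SimpleGraph.Walk.length_edges] at h2
      rw [h2] at hodd
      exact absurd hodd (by decide)
    obtain ⟨e, he⟩ := List.exists_mem_of_ne_nil _ hne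
    induction e using Sym2.ind with
    | _ a b => exact ⟨a, s(a, b), he, Sym2.mem_mk_left a b⟩
  choose t e he hte using hch
  have : Fintype F := Fintype.ofFinite F
  set T : Finset V := univ.image t with hT
  have hTc : T.card ≤ F.ncard := by
    refine card_image_le.trans ?_
    rw [card_univ, ← Nat.card_eq_fintype_card, Nat.card_coe_set_eq]
  refine (bound (T := T) hX ?_).trans (by omega)
  by_contra hcol
  obtain ⟨v, p, hp, hodd⟩ := exists_odd_cycle hcol
  set φ := (SimpleGraph.Embedding.induce (G := G) (outside G X T)) with hφ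
  have hpm : (p.map φ.toHom).IsCycle := hp.map φ.injective
  have hsup : ∀ x ∈ (p.map φ.toHom).support, x ∈ outside G X T := by
    intro x hx
    rw [SimpleGraph.Walk.support_map, List.mem_map] at hx
    obtain ⟨y, -, rfl⟩ := hx
    exact y.2
  have hinc : ∀ e ∈ (p.map φ.toHom).edges, ∀ x ∈ e, x ∈ outside G X T := by
    intro e he x hx
    exact hsup x (SimpleGraph.Walk.mem_support_of_mem_edges he hx)
  have hc : ({e | e ∈ (p.map φ.toHom).edges} : Set (Sym2 V)) ∈ F := by
    refine ⟨⟨_, p.map φ.toHom, hpm, ?_, rfl⟩, ?_⟩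
    · rw [SimpleGraph.Walk.length_map]; exact hodd
    · intro e he x hx
      have := hinc e he x hx
      exact ⟨this.1, this.2.1⟩
  have h3 := hinc _ (he ⟨_, hc⟩) _ (hte ⟨_, hc⟩)
  exact h3.2.2 (mem_image.2 ⟨_, mem_univ _, rfl⟩)

theorem exists_critical : ∃ X : Finset V, IsCritical G X := by
  classical
  have := Fintype.ofFinite V
  have hne : (univ.filter fun X : Finset V => G.IsIndepSet (X : Set V)).Nonempty :=
    ⟨∅, mem_filter.2 ⟨mem_univ _, by intro a ha; simp at ha⟩⟩
  obtain ⟨X, hX, hmax⟩ := exists_max_image _ (dif G) hne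
  exact ⟨X, (mem_filter.1 hX).2, fun Y hY => hmax Y (mem_filter.2 ⟨mem_univ _, hY⟩)⟩

end crit

/-- **Q1.** `|corona(G)| + |ker(G)| ≤ 2 α(G) + k` for every finite graph `G` with exactly `k` odd cycles.
Moreover, for every critical independent set `X` the number `k` can be replaced by the number of the odd
cycles without vertices in `X ∪ N(X)`, and even by the size of any set `T` of vertices such that
`G - (X ∪ N(X) ∪ T)` is bipartite. -/
theorem result {V : Type*} [Finite V] (G : SimpleGraph V) :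
    (corona G).ncard + (ker G).ncard ≤ 2 * G.indepNum + (oddCycles G).ncard ∧
    ∀ X : Finset V, IsCritical G X →
      ((corona G).ncard + (ker G).ncard ≤ 2 * G.indepNum +
        {c | c ∈ oddCycles G ∧ ∀ e ∈ c, ∀ v ∈ e, v ∉ X ∧ v ∉ nbhd G X}.ncard) ∧
      ∀ T : Finset V, (G.induce (outside G X T)).Colorable 2 →
        (corona G).ncard + (ker G).ncard ≤ 2 * G.indepNum + T.card := by
  refine ⟨?_, fun X hX => ⟨bound_cycles hX, fun T hT => bound hX hT⟩⟩
  obtain ⟨X, hX⟩ := exists_critical (G := G)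
  refine (bound_cycles hX).trans ?_
  have : {c | c ∈ oddCycles G ∧ ∀ e ∈ c, ∀ v ∈ e, v ∉ X ∧ v ∉ nbhd G X}.ncard ≤
      (oddCycles G).ncard := Set.ncard_le_ncard (fun c hc => hc.1) (Set.toFinite _)
  omega

end Pool.Agent.Results.MP_7e5e3f_co.CoronaPlusKer
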